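import Mathlib

set_option autoImplicit false
set_option linter.unusedSectionVars false

namespace Pool.Agent.Results.MP_f18e63_co.SevenPoints

open Finset

/-! ### Set systems -/

section defs

variable {S : Type} [Fintype S] [DecidableEq S]

/-- The inclusion-minimal blocks of a set system. -/
def minBlocks (F : Finset (Finset S)) : Finset (Finset S) :=
  F.filter (fun B => ∀ A ∈ F, A ⊆ B → A = B)

/-- The set `C` meets every member of `F`. -/
def Meets (F : Finset (Finset S)) (C : Finset S) : Prop := ∀ B ∈ F, (C ∩ B).Nonempty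

instance (F : Finset (Finset S)) (C : Finset S) : Decidable (Meets F C) := by
  unfold Meets; infer_instance

/-- The Menger dual: the inclusion-minimal sets of points meeting every minimal block. -/
def dual (F : Finset (Finset S)) : Finset (Finset S) :=
  univ.filter (fun C => Meets (minBlocks F) C ∧ ∀ C' ⊆ C, Meets (minBlocks F) C' → C' = C)

/-- The Menger property: the largest number of pairwise disjoint minimal blocks equals the least
cardinality of a block of the Menger dual (every system with the empty block has it by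
convention). -/
def MengerProperty (F : Finset (Finset S)) : Prop :=
  ∅ ∈ F ∨ ∃ k : ℕ,
    IsGreatest {n : ℕ | ∃ P ⊆ minBlocks F, (P : Set (Finset S)).PairwiseDisjoint id ∧
      P.card = n} k ∧
    IsLeast {n : ℕ | ∃ C ∈ dual F, C.card = n} k

/-- Mengerian set systems: the weighted version of the Menger property, for all weights. -/
def Mengerian (F : Finset (Finset S)) : Prop :=
  ∅ ∈ F ∨ ∀ c : S → ℕ, ∃ f : Finset S → ℕ,
    (∀ x, ∑ B ∈ F.filter (fun B => x ∈ B), f B ≤ c x) ∧
    IsLeast {n : ℕ | ∃ C ∈ dual F, ∑ x ∈ C, c x = n} (∑ B ∈ F, f B)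

/-- Minors: the systems reached from `F` by a sequence of weak point-restrictions (remove the
points of `T` from every block) and strong point-restrictions (remove every block meeting `T`). -/
inductive IsMinor (F : Finset (Finset S)) : Finset (Finset S) → Prop
  | refl : IsMinor F F
  | weak (G : Finset (Finset S)) (T : Finset S) :
      IsMinor F G → IsMinor F (G.image (fun B => B \ T))
  | strong (G : Finset (Finset S)) (T : Finset S) :
      IsMinor F G → IsMinor F (G.filter (fun B => Disjoint B T))

/-- The system `abc, cde, bdf, aef, cf, be, ad` on the points `a, …, f = 0, …, 5`. -/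
def Q : Finset (Finset (Fin 6)) :=
  {{0, 1, 2}, {2, 3, 4}, {1, 3, 5}, {0, 4, 5}, {2, 5}, {1, 4}, {0, 3}}

/-- `F` contains `Q` as a minor: the minimal blocks of some minor are the blocks of `Q`, up to
renaming the points. -/
def ContainsQ (F : Finset (Finset S)) : Prop :=
  ∃ G, IsMinor F G ∧ ∃ e : Fin 6 ↪ S, minBlocks G = Q.image (fun B => B.map e)

end defs

/-! ### Packings of an indexed family of blocks -/

section packing

variable {S ι : Type} [Fintype S] [DecidableEq S] [Fintype ι] [DecidableEq ι]
variable (A : ι → Finset S)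

/-- The load of the point `x`. -/
def load (f : ι → ℕ) (x : S) : ℕ := ∑ i ∈ univ.filter (fun i => x ∈ A i), f i

/-- The size of a packing. -/
def size (f : ι → ℕ) : ℕ := ∑ i, f i

theorem load_add (f g : ι → ℕ) (x : S) :
    load A (fun i => f i + g i) x = load A f x + load A g x := by
  unfold load; exact Finset.sum_add_distrib

theorem load_mul (k : ℕ) (f : ι → ℕ) (x : S) : load A (fun i => k * f i) x = k * load A f x := by
  unfold load; rw [Finset.mul_sum]

theorem size_add (f g : ι → ℕ) : size (fun i => f i + g i) = size f + size g := by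
  unfold size; exact Finset.sum_add_distrib

theorem size_mul (k : ℕ) (f : ι → ℕ) : size (fun i => k * f i) = k * size f := by
  unfold size; rw [Finset.mul_sum]

/-- Every subfamily `T` can be halved, rounding up. -/
def Halving : Prop := ∀ T : Finset ι, ∃ g : ι → ℕ, T.card ≤ 2 * size g ∧
  ∀ x, 2 * load A g x ≤ (T.filter (fun i => x ∈ A i)).card + 1

variable {A}

theorem half (hH : Halving A) (f : ι → ℕ) (c : S → ℕ) (hf : ∀ x, load A f x ≤ 2 * c x) :
    ∃ g : ι → ℕ, (∀ x, load A g x ≤ c x) ∧ size f ≤ 2 * size g := by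
  obtain ⟨g, hg1, hg2⟩ := hH (univ.filter (fun i => f i % 2 = 1))
  have hdec : f = fun i => 2 * (f i / 2) + f i % 2 := by
    funext i; omega
  have hmod : ∀ i, f i % 2 = if f i % 2 = 1 then 1 else 0 := by
    intro i; split_ifs with h <;> omega
  refine ⟨fun i => f i / 2 + g i, fun x => ?_, ?_⟩
  · have h1 : load A f x = 2 * load A (fun i => f i / 2) x + load A (fun i => f i % 2) x := by
      conv_lhs => rw [hdec]
      rw [load_add, load_mul]
    have h2 : load A (fun i => f i % 2) x =
        ((univ.filter (fun i => f i % 2 = 1)).filter (fun i => x ∈ A i)).card := by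
      unfold load
      rw [Finset.sum_congr rfl (fun i _ => hmod i), ← Finset.card_filter, Finset.filter_filter,
        Finset.filter_filter]
      congr 1
      ext i; simp [and_comm]
    have h3 := hg2 x
    have h4 := hf x
    rw [load_add]
    omega
  · have h1 : size f = 2 * size (fun i => f i / 2) + size (fun i => f i % 2) := by
      conv_lhs => rw [hdec]
      rw [size_add, size_mul]
    have h2 : size (fun i => f i % 2) = (univ.filter (fun i => f i % 2 = 1)).card := by
      unfold size
      rw [Finset.sum_congr rfl (fun i _ => hmod i), ← Finset.card_filter]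
    rw [size_add]
    omega

theorem half_pow (hH : Halving A) (k : ℕ) : ∀ (f : ι → ℕ) (c : S → ℕ),
    (∀ x, load A f x ≤ 2 ^ k * c x) →
    ∃ g : ι → ℕ, (∀ x, load A g x ≤ c x) ∧ size f ≤ 2 ^ k * size g := by
  induction k with
  | zero =>
    intro f c hf
    exact ⟨f, fun x => by simpa using hf x, by simp⟩
  | succ k ih =>
    intro f c hf
    obtain ⟨g, hg1, hg2⟩ := half hH f (fun x => 2 ^ k * c x) (fun x => by
      have := hf x; rw [pow_succ] at this; linarith)
    obtain ⟨g', h1, h2⟩ := ih g c hg1
    refine ⟨g', h1, ?_⟩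
    rw [pow_succ]
    linarith

theorem size_le_cover (f : ι → ℕ) (c : S → ℕ) (hf : ∀ x, load A f x ≤ c x) (C : Finset S)
    (hC : ∀ i, (C ∩ A i).Nonempty) : size f ≤ ∑ x ∈ C, c x := by
  calc size f = ∑ i, f i := rfl
    _ ≤ ∑ i, ∑ x ∈ C, if x ∈ A i then f i else 0 := by
      refine Finset.sum_le_sum (fun i _ => ?_)
      obtain ⟨x, hx⟩ := hC i
      rw [Finset.mem_inter] at hx
      have := Finset.single_le_sum (f := fun x => if x ∈ A i then f i else 0)
        (fun y _ => Nat.zero_le _) hx.1
      simpa [hx.2] using this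
    _ = ∑ x ∈ C, load A f x := by
      rw [Finset.sum_comm]
      refine Finset.sum_congr rfl (fun x _ => ?_)
      unfold load
      rw [Finset.sum_filter]
    _ ≤ ∑ x ∈ C, c x := Finset.sum_le_sum (fun x _ => hf x)

theorem exists_opt (hne : ∀ i, (A i).Nonempty) (c : S → ℕ) :
    ∃ g : ι → ℕ, (∀ x, load A g x ≤ c x) ∧
      ∀ g' : ι → ℕ, (∀ x, load A g' x ≤ c x) → size g' ≤ size g := by
  classical
  have hbd : BddAbove {n : ℕ | ∃ g : ι → ℕ, (∀ x, load A g x ≤ c x) ∧ size g = n} := by
    refine ⟨∑ x, c x, ?_⟩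
    rintro n ⟨g, hg, rfl⟩
    exact size_le_cover g c hg univ (fun i => by simpa using hne i)
  have hnon : {n : ℕ | ∃ g : ι → ℕ, (∀ x, load A g x ≤ c x) ∧ size g = n}.Nonempty :=
    ⟨0, fun _ => 0, fun x => by simp [load], by simp [size]⟩
  obtain ⟨g, hg, hgs⟩ := Nat.sSup_mem hnon hbd
  refine ⟨g, hg, fun g' hg' => ?_⟩
  rw [hgs]
  exact le_csSup hbd ⟨g', hg', rfl⟩

theorem mult (hH : Halving A) (k : ℕ) (hk : 1 ≤ k) (c : S → ℕ) (g : ι → ℕ)
    (hg : ∀ x, load A g x ≤ c x)
    (hopt : ∀ g' : ι → ℕ, (∀ x, load A g' x ≤ c x) → size g' ≤ size g)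
    (f : ι → ℕ) (hf : ∀ x, load A f x ≤ k * c x) : size f ≤ k * size g := by
  by_contra hcon
  push Not at hcon
  have hN : k < 2 ^ k := Nat.lt_two_pow_self
  obtain ⟨q, hq⟩ : ∃ q, q = 2 ^ k / k := ⟨_, rfl⟩
  obtain ⟨r, hr⟩ : ∃ r, r = 2 ^ k % k := ⟨_, rfl⟩
  have hqr : 2 ^ k = k * q + r := by rw [hq, hr]; exact (Nat.div_add_mod _ _).symm
  have hq1 : 1 ≤ q := by rw [hq]; exact (Nat.one_le_div_iff (by omega)).2 hN.le
  obtain ⟨g', h1, h2⟩ := half_pow hH k (fun i => q * f i + r * g i) c (fun x => by
    rw [load_add, load_mul, load_mul, hqr]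
    have h3 := Nat.mul_le_mul_left q (hf x)
    have h4 := Nat.mul_le_mul_left r (hg x)
    nlinarith)
  rw [size_add, size_mul, size_mul] at h2
  have h5 := Nat.mul_le_mul_left (2 ^ k) (hopt g' h1)
  have h6 : q * (k * size g + 1) ≤ q * size f := Nat.mul_le_mul_left q hcon
  have h7 : 2 ^ k * size g = k * q * size g + r * size g := by rw [hqr]; ring
  nlinarith

theorem minmax (hH : Halving A) (hne : ∀ i, (A i).Nonempty) : ∀ (n : ℕ) (c : S → ℕ),
    ∑ x, c x = n → ∃ (f : ι → ℕ) (C : Finset S), (∀ x, load A f x ≤ c x) ∧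
      (∀ i, (C ∩ A i).Nonempty) ∧ ∑ x ∈ C, c x ≤ size f := by
  intro n
  induction n using Nat.strong_induction_on with
  | _ n ih =>
  intro c hc
  obtain ⟨g, hg, hopt⟩ := exists_opt hne c
  by_cases h : ∃ x, 1 ≤ c x ∧ ∀ g' : ι → ℕ,
      (∀ y, load A g' y ≤ Function.update c x (c x - 1) y) → size g' + 1 ≤ size g
  · obtain ⟨x, hx, hx'⟩ := h
    have hsum : ∑ y, Function.update c x (c x - 1) y + 1 = n := by
      rw [← hc, ← Finset.add_sum_erase _ _ (Finset.mem_univ x),
        ← Finset.add_sum_erase univ c (Finset.mem_univ x)]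
      have : ∑ y ∈ univ.erase x, Function.update c x (c x - 1) y = ∑ y ∈ univ.erase x, c y :=
        Finset.sum_congr rfl (fun y hy => by
          rw [Function.update_of_ne (Finset.ne_of_mem_erase hy)])
      rw [this, Function.update_self]
      omega
    obtain ⟨f', C, h1, h2, h3⟩ := ih (∑ y, Function.update c x (c x - 1) y) (by omega) _ rfl
    refine ⟨g, C, hg, h2, ?_⟩
    have h4 := hx' f' h1
    have h5 : ∑ y ∈ C, c y ≤ ∑ y ∈ C, Function.update c x (c x - 1) y + 1 := by
      by_cases hxC : x ∈ C
      · rw [← Finset.add_sum_erase C c hxC,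
          ← Finset.add_sum_erase C (Function.update c x (c x - 1)) hxC]
        have : ∑ y ∈ C.erase x, Function.update c x (c x - 1) y = ∑ y ∈ C.erase x, c y :=
          Finset.sum_congr rfl (fun y hy => by
            rw [Function.update_of_ne (Finset.ne_of_mem_erase hy)])
        rw [this, Function.update_self]
        omega
      · have : ∑ y ∈ C, Function.update c x (c x - 1) y = ∑ y ∈ C, c y :=
          Finset.sum_congr rfl (fun y hy => by
            rw [Function.update_of_ne (by rintro rfl; exact hxC hy)])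
        rw [this]
        omega
    omega
  · push Not at h
    have hx : ∀ x, ∃ gx : ι → ℕ, 1 ≤ c x →
        (∀ y, load A gx y ≤ Function.update c x (c x - 1) y) ∧ size g ≤ size gx := by
      intro x
      by_cases hx : 1 ≤ c x
      · obtain ⟨g', h1, h2⟩ := h x hx
        exact ⟨g', fun _ => ⟨h1, by omega⟩⟩
      · exact ⟨g, fun h' => absurd h' hx⟩
    choose G hG using hx
    rcases Nat.eq_zero_or_pos (size g) with h0 | hpos
    · -- the points of weight zero form a cover
      refine ⟨g, univ.filter (fun x => c x = 0), hg, fun i => ?_, ?_⟩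
      · by_contra hcon
        rw [Finset.not_nonempty_iff_eq_empty] at hcon
        have hall : ∀ x ∈ A i, 1 ≤ c x := by
          intro x hx
          by_contra h1
          have : x ∈ univ.filter (fun x => c x = 0) ∩ A i := by
            simp [hx]; omega
          rw [hcon] at this
          simp at this
        have := hopt (fun j => if j = i then 1 else 0) (fun x => by
          unfold load
          rw [Finset.sum_ite_eq']
          split_ifs with h1
          · exact hall x (by simpa using h1)
          · exact Nat.zero_le _)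
        have h2 : size (fun j => if j = i then 1 else 0) = 1 := by
          unfold size; simp
        omega
      · rw [h0]
        refine le_of_eq (Finset.sum_eq_zero (fun x hx => ?_))
        simpa using hx
    · exfalso
      set F : ι → ℕ := fun i => ∑ x, c x * G x i with hF
      have hload : ∀ z, load A F z + c z ≤ n * c z := by
        intro z
        have h1 : load A F z = ∑ x, c x * load A (G x) z := by
          unfold load
          rw [hF, Finset.sum_comm]
          refine Finset.sum_congr rfl (fun x _ => ?_)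
          rw [Finset.mul_sum]
        rw [h1, ← hc, Finset.sum_mul, ← Finset.add_sum_erase _ _ (Finset.mem_univ z),
          ← Finset.add_sum_erase univ (fun i => c i * c z) (Finset.mem_univ z)]
        have h2 : ∑ x ∈ univ.erase z, c x * load A (G x) z ≤ ∑ x ∈ univ.erase z, c x * c z := by
          refine Finset.sum_le_sum (fun x hx => ?_)
          rcases Nat.eq_zero_or_pos (c x) with hx0 | hx1
          · rw [hx0]; simp
          · have := (hG x hx1).1 z
            rw [Function.update_of_ne (Finset.ne_of_mem_erase hx).symm] at this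
            exact Nat.mul_le_mul_left _ this
        have h3 : c z * load A (G z) z + c z ≤ c z * c z := by
          rcases Nat.eq_zero_or_pos (c z) with hx0 | hx1
          · rw [hx0]; simp
          · have := (hG z hx1).1 z
            rw [Function.update_self] at this
            have h4 : load A (G z) z + 1 ≤ c z := by omega
            calc c z * load A (G z) z + c z = c z * (load A (G z) z + 1) := by ring
              _ ≤ c z * c z := Nat.mul_le_mul_left _ h4
        have h4 : (fun i => c i * c z) z = c z * c z := rfl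
        simp only at h4 ⊢
        omega
      have hsize : n * size g ≤ size F := by
        have h1 : size F = ∑ x, c x * size (G x) := by
          unfold size
          rw [hF, Finset.sum_comm]
          refine Finset.sum_congr rfl (fun x _ => ?_)
          rw [Finset.mul_sum]
        rw [h1, ← hc, Finset.sum_mul]
        refine Finset.sum_le_sum (fun x _ => ?_)
        rcases Nat.eq_zero_or_pos (c x) with hx0 | hx1
        · rw [hx0]; simp
        · exact Nat.mul_le_mul_left _ (hG x hx1).2
      have hn : size g ≤ n := by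
        rw [← hc]
        exact size_le_cover g c hg univ (fun i => by simpa using hne i)
      have hn1 : 1 ≤ n := le_trans hpos hn
      have hload' : ∀ z, load A F z ≤ (n - 1) * c z := by
        intro z
        have := hload z
        obtain ⟨m, rfl⟩ : ∃ m, n = m + 1 := ⟨n - 1, by omega⟩
        rw [Nat.add_sub_cancel]
        have h5 : (m + 1) * c z = m * c z + c z := by ring
        omega
      rcases Nat.eq_or_lt_of_le hn1 with h1 | h1
      · have h2 : size F ≤ ∑ x ∈ (univ : Finset S), 0 :=
          size_le_cover F (fun _ => 0) (fun z => by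
            have := hload' z
            rw [← h1] at this
            simpa using this) univ (fun i => by simpa using hne i)
        rw [← h1] at hsize
        simp at h2
        omega
      · have h2 := mult hH (n - 1) (by omega) c g hg hopt F hload'
        obtain ⟨m, rfl⟩ : ∃ m, n = m + 1 := ⟨n - 1, by omega⟩
        rw [Nat.add_sub_cancel] at h2
        have h5 : (m + 1) * size g = m * size g + size g := by ring
        omega

end packing

/-! ### Generalities on minimal blocks and covers -/

section general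

variable {S : Type} [Fintype S] [DecidableEq S]

theorem exists_minBlock {F : Finset (Finset S)} {B : Finset S} (hB : B ∈ F) :
    ∃ A ∈ minBlocks F, A ⊆ B := by
  obtain ⟨A, hAB, hA⟩ := F.exists_le_minimal hB
  refine ⟨A, ?_, hAB⟩
  unfold minBlocks
  rw [Finset.mem_filter]
  exact ⟨hA.1, fun A' hA' hs => Finset.Subset.antisymm hs (hA.2 hA' hs)⟩

theorem meets_minBlocks {F : Finset (Finset S)} {C : Finset S} :
    Meets (minBlocks F) C ↔ Meets F C := by
  constructor
  · intro h B hB
    obtain ⟨A, hA, hAB⟩ := exists_minBlock hB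
    exact (h A hA).mono (Finset.inter_subset_inter_left hAB)
  · intro h B hB
    exact h B (Finset.mem_filter.1 hB).1

theorem exists_dual_subset {F : Finset (Finset S)} {C : Finset S} (hC : Meets F C) :
    ∃ C' ∈ dual F, C' ⊆ C := by
  obtain ⟨A, hAB, hA⟩ := (univ.filter (fun C => Meets (minBlocks F) C)).exists_le_minimal
    (a := C) (by simp [meets_minBlocks, hC])
  refine ⟨A, ?_, hAB⟩
  have hA1 : A ∈ univ.filter (fun C => Meets (minBlocks F) C) := hA.1
  rw [Finset.mem_filter] at hA1
  unfold dual
  rw [Finset.mem_filter]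
  refine ⟨Finset.mem_univ _, hA1.2, fun A' hs hA' => Finset.Subset.antisymm hs ?_⟩
  exact hA.2 (by simp [hA']) hs

theorem mengerian_of_halving {ι : Type} [Fintype ι] [DecidableEq ι] (A : ι → Finset S)
    (hinj : Function.Injective A) (hH : Halving A) (hne : ∀ i, (A i).Nonempty) :
    Mengerian (univ.image A) := by
  right
  intro c
  obtain ⟨f, C, h1, h2, h3⟩ := minmax hH hne _ c rfl
  have hext : ∀ i, Function.extend A f 0 (A i) = f i := fun i => hinj.extend_apply f 0 i
  have hsize : ∑ B ∈ univ.image A, Function.extend A f 0 B = size f := by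
    rw [Finset.sum_image (fun i _ j _ h => hinj h)]
    unfold size
    exact Finset.sum_congr rfl (fun i _ => hext i)
  have hload : ∀ x, ∑ B ∈ (univ.image A).filter (fun B => x ∈ B), Function.extend A f 0 B =
      load A f x := by
    intro x
    rw [Finset.filter_image, Finset.sum_image (fun i _ j _ h => hinj h)]
    unfold load
    exact Finset.sum_congr rfl (fun i _ => hext i)
  refine ⟨Function.extend A f 0, fun x => by rw [hload]; exact h1 x, ?_⟩
  rw [hsize]
  have hlow : ∀ C' ∈ dual (univ.image A), size f ≤ ∑ x ∈ C', c x := by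
    intro C' hC'
    unfold dual at hC'
    rw [Finset.mem_filter, meets_minBlocks] at hC'
    exact size_le_cover f c h1 C' (fun i => hC'.2.1 (A i) (Finset.mem_image_of_mem _
      (Finset.mem_univ i)))
  constructor
  · obtain ⟨C', hC', hs⟩ := exists_dual_subset (F := univ.image A) (C := C) (by
      intro B hB
      obtain ⟨i, -, rfl⟩ := Finset.mem_image.1 hB
      exact h2 i)
    refine ⟨C', hC', le_antisymm ?_ (hlow C' hC')⟩
    exact le_trans (Finset.sum_le_sum_of_subset hs) h3
  · rintro n ⟨C', hC', rfl⟩
    exact hlow C' hC'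

theorem isMinor_closed {F G : Finset (Finset S)} (h : IsMinor F G) :
    ∃ D W : Finset S, G = (F.filter (fun B => Disjoint B D)).image (fun B => B \ W) := by
  induction h with
  | refl => exact ⟨∅, ∅, by simp⟩
  | weak G T _ ih =>
    obtain ⟨D, W, rfl⟩ := ih
    refine ⟨D, W ∪ T, ?_⟩
    rw [Finset.image_image]
    refine Finset.image_congr (fun B _ => ?_)
    simp only [Function.comp]
    rw [sdiff_sdiff_left, Finset.sup_eq_union]
  | strong G T _ ih =>
    obtain ⟨D, W, rfl⟩ := ih
    refine ⟨D ∪ (T \ W), W, ?_⟩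
    rw [Finset.filter_image, Finset.filter_filter]
    congr 1
    refine Finset.filter_congr (fun B _ => ?_)
    rw [Finset.disjoint_union_right]
    refine and_congr_right (fun _ => ?_)
    simp only [Finset.disjoint_left, Finset.mem_sdiff]
    constructor
    · intro h x hx hx'
      exact h ⟨hx, hx'.2⟩ hx'.1
    · intro h x hx hx'
      exact h hx.1 ⟨hx', hx.2⟩

end general

/-! ### The system on seven points -/

/-- The eight blocks. -/
def blk : Fin 8 → Finset (Fin 7) :=
  ![{0, 1}, {1, 2}, {3, 4}, {5, 6}, {0, 3, 5}, {1, 4, 5}, {1, 3, 6}, {2, 4, 6}]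

/-- The system. -/
def F7 : Finset (Finset (Fin 7)) := univ.image blk

/-- Certificates for the halving property (base four digits). -/
def cert : List ℕ := [0, 1, 4, 1, 16, 1, 4, 17, 64, 1, 4, 65, 16, 17, 20, 17, 256, 1, 1, 260, 16, 17, 17, 17, 64,
  65, 65, 65, 80, 17, 17, 81, 1024, 1, 4, 5, 16, 17, 20, 5, 64, 65, 68, 5, 80, 17, 20, 21, 1,
  17, 17, 5, 17, 17, 17, 21, 17, 17, 17, 21, 17, 81, 81, 21, 4096, 1, 4, 5, 16, 17, 20, 5, 64,
  65, 68, 5, 80, 17, 20, 21, 1, 65, 65, 5, 17, 17, 17, 21, 65, 65, 65, 69, 17, 81, 81, 21, 16,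
  17, 20, 5, 80, 17, 20, 21, 80, 17, 20, 21, 80, 81, 84, 21, 17, 17, 5, 21, 17, 81, 21, 21, 17,
  81, 21, 21, 81, 81, 21, 85, 16384, 1, 4, 16385, 16, 17, 20, 17, 64, 65, 68, 65, 80, 17, 20,
  81, 16, 17, 17, 17, 80, 17, 17, 81, 80, 17, 17, 81, 80, 81, 81, 81, 4, 65, 68, 5, 20, 17, 20,
  21, 68, 65, 68, 69, 20, 81, 84, 21, 17, 17, 17, 21, 17, 81, 81, 21, 17, 81, 81, 21, 81, 81,
  81, 85, 4, 17, 20, 5, 20, 17, 20, 21, 20, 17, 20, 21, 20, 81, 84, 21, 17, 17, 17, 21, 17, 81,
  81, 21, 17, 81, 81, 21, 81, 81, 81, 85, 20, 5, 20, 21, 20, 21, 84, 21, 20, 21, 84, 21, 84, 21,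
  84, 85, 17, 21, 21, 21, 33, 21, 21, 37, 81, 21, 21, 85, 33, 37, 37, 37]

/-- The code of a subfamily. -/
def code (T : Finset (Fin 8)) : ℕ := ∑ i ∈ T, 2 ^ (i : ℕ)

theorem cert_ok : ∀ T : Finset (Fin 8),
    T.card ≤ 2 * ∑ i : Fin 8, (cert.getD (code T) 0 / 4 ^ (i : ℕ) % 4) ∧
    ∀ x : Fin 7, 2 * ∑ i ∈ univ.filter (fun i => x ∈ blk i),
      (cert.getD (code T) 0 / 4 ^ (i : ℕ) % 4) ≤ (T.filter (fun i => x ∈ blk i)).card + 1 := by
  decide +kernel

theorem halving7 : Halving blk := fun T => ⟨fun i => cert.getD (code T) 0 / 4 ^ (i : ℕ) % 4,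
  (cert_ok T).1, (cert_ok T).2⟩

theorem mengerian7 : Mengerian F7 :=
  mengerian_of_halving blk (by decide +kernel) halving7 (by decide +kernel)

theorem minor_small : ∀ p : Fin 7, ∀ b d : Bool,
    (minBlocks ((F7.filter (fun B => Disjoint B (if b then {p} else ∅))).image
      (fun B => B \ (if d then {p} else ∅)))).card ≠ 7 := by
  decide +kernel

theorem cardQ : Q.card = 7 := by decide +kernel

theorem coverQ : ∀ v : Fin 6, ∃ B ∈ Q, v ∈ B := by decide +kernel

theorem no_Q : ¬ ContainsQ F7 := by
  rintro ⟨G, hG, e, he⟩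
  obtain ⟨D, W, rfl⟩ := isMinor_closed hG
  have hcard : (minBlocks ((F7.filter (fun B => Disjoint B D)).image (fun B => B \ W))).card
      = 7 := by
    rw [he, Finset.card_image_of_injective _ (Finset.map_injective e), cardQ]
  have hrange : ∀ v : Fin 6, e v ∉ D ∪ W := by
    intro v
    obtain ⟨B, hB, hv⟩ := coverQ v
    have h1 : B.map e ∈ minBlocks ((F7.filter (fun B => Disjoint B D)).image
        (fun B => B \ W)) := by
      rw [he]; exact Finset.mem_image_of_mem _ hB
    have h2 := (Finset.mem_filter.1 h1).1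
    obtain ⟨B', hB', hBB⟩ := Finset.mem_image.1 h2
    have h3 : e v ∈ B' \ W := by
      rw [hBB]; exact Finset.mem_map_of_mem e hv
    rw [Finset.mem_sdiff] at h3
    have h4 := (Finset.mem_filter.1 hB').2
    rw [Finset.mem_union]
    rintro (h5 | h5)
    · exact Finset.disjoint_left.1 h4 h3.1 h5
    · exact h3.2 h5
  have hsub : (univ.map e) ⊆ (D ∪ W)ᶜ := by
    intro y hy
    obtain ⟨v, -, rfl⟩ := Finset.mem_map.1 hy
    exact Finset.mem_compl.2 (hrange v)
  have h6 := Finset.card_le_card hsub
  rw [Finset.card_map, Finset.card_compl, Finset.card_univ, Fintype.card_fin,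
    Fintype.card_fin] at h6
  have h7 : (D ∪ W).card ≤ 1 := by omega
  obtain ⟨p, hp⟩ : ∃ p, D ∪ W ⊆ {p} := by
    rcases Nat.eq_zero_or_pos (D ∪ W).card with h8 | h8
    · rw [Finset.card_eq_zero] at h8
      exact ⟨0, by rw [h8]; simp⟩
    · obtain ⟨p, hp⟩ := Finset.card_eq_one.1 (le_antisymm h7 h8)
      exact ⟨p, by rw [hp]⟩
  have hD : D = if decide (D = {p}) then {p} else ∅ := by
    rcases Finset.subset_singleton_iff.1 (Finset.union_subset_left hp) with h | h
    · subst h; simp
    · subst h; simp
  have hW : W = if decide (W = {p}) then {p} else ∅ := by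
    rcases Finset.subset_singleton_iff.1 (Finset.union_subset_right hp) with h | h
    · subst h; simp
    · subst h; simp
  rw [hD, hW] at hcard
  exact minor_small p _ _ hcard

theorem no_disjoint : ∀ C : Finset (Fin 7), ¬ (Meets F7 C ∧ Meets F7 Cᶜ) := by
  decide +kernel

theorem mem_dual7 : ({1, 4, 5} : Finset (Fin 7)) ∈ dual F7 ∧
    ({0, 2, 4, 6} : Finset (Fin 7)) ∈ dual F7 ∧ ({0, 2, 3, 5} : Finset (Fin 7)) ∈ dual F7 := by
  simp only [dual, Finset.mem_filter, Finset.mem_univ, true_and]
  decide +kernel

theorem avoid7 : ∀ C : Finset (Fin 7), C.card ≤ 1 →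
    Disjoint C {1, 4, 5} ∨ Disjoint C {0, 2, 4, 6} ∨ Disjoint C {0, 2, 3, 5} := by
  decide +kernel

theorem meets_of_mem_dual {S : Type} [Fintype S] [DecidableEq S] {F : Finset (Finset S)}
    {C : Finset S} (h : C ∈ dual F) : Meets F C := by
  unfold dual at h
  rw [Finset.mem_filter, meets_minBlocks] at h
  exact h.2.1

theorem two_le {K : Finset (Fin 7)} (hK : Meets (dual F7) K) : 2 ≤ K.card := by
  by_contra h
  obtain ⟨h1, h2, h3⟩ := mem_dual7
  rcases avoid7 K (by omega) with h4 | h4 | h4
  · exact (Finset.disjoint_iff_inter_eq_empty.1 h4 ▸ hK _ h1).ne_empty rfl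
  · exact (Finset.disjoint_iff_inter_eq_empty.1 h4 ▸ hK _ h2).ne_empty rfl
  · exact (Finset.disjoint_iff_inter_eq_empty.1 h4 ▸ hK _ h3).ne_empty rfl

theorem not_menger : ¬ MengerProperty (dual F7) := by
  rintro (h | ⟨k, ⟨⟨P, hP, hPd, hPk⟩, -⟩, hk⟩)
  · have := meets_of_mem_dual h {0, 1} (by decide +kernel)
    simp at this
  · -- the least size of a cover is two
    have hk2 : 2 ≤ k := by
      obtain ⟨K, hK, rfl⟩ := hk.1
      exact two_le (meets_of_mem_dual hK)
    -- two disjoint members of the dual
    obtain ⟨P', hP'P, hP'⟩ := Finset.exists_subset_card_eq (hPk.symm ▸ hk2)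
    obtain ⟨X, Y, hXY, rfl⟩ := Finset.card_eq_two.1 hP'
    have hX : X ∈ P := hP'P (by simp)
    have hY : Y ∈ P := hP'P (by simp)
    have hXd : X ∈ dual F7 := (Finset.mem_filter.1 (hP hX)).1
    have hYd : Y ∈ dual F7 := (Finset.mem_filter.1 (hP hY)).1
    have hdis : Disjoint X Y := hPd hX hY hXY
    refine no_disjoint X ⟨meets_of_mem_dual hXd, fun B hB => ?_⟩
    obtain ⟨y, hy⟩ := meets_of_mem_dual hYd B hB
    rw [Finset.mem_inter] at hy
    exact ⟨y, Finset.mem_inter.2 ⟨Finset.mem_compl.2 (fun hx =>
      Finset.disjoint_left.1 hdis hx hy.1), hy.2⟩⟩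

/-- There is a Mengerian set system on seven points (with eight blocks) which does not contain
`Q` as a minor and whose Menger dual does not have the Menger property. -/
theorem result : ∃ F : Finset (Finset (Fin 7)), Mengerian F ∧ ¬ ContainsQ F ∧
    ¬ MengerProperty (dual F) :=
  ⟨F7, mengerian7, no_Q, not_menger⟩

end Pool.Agent.Results.MP_f18e63_co.SevenPoints
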